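import Pool.Agent.Q208.F.OscForce

/-!
# `r_osc < cov(N)` is consistent

Adding many random reals: the infinite sets of the ground model witness the oscillation reaping
number, so `r_osc ≤ 𝔠` for the continuum `𝔠` of the ground model, while `cov(N)` is as large as
wanted.
-/

open Cardinal Q208.F

namespace Pool.Agent.Results.MP_177d78_lc.OscBelowCovNull

/-- The sentences `roscLe K` and `covNLe K` say, with the classical truth values, that
`r_osc ≤ |K|` and `cov(N) ≤ |K|`. For every cardinal `κ ≥ 𝔠` there is a set `P` of forcing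
conditions with the countable chain condition, so that all uncountable cardinals are preserved,
such that every condition forces that `r_osc ≤ 𝔠` and that `cov(N) ≤ κ` fails, where `𝔠` is the
cardinality of the continuum of the ground model. -/
theorem result :
    ((∀ K : Type, classical.roscLe K ↔ rosc ≤ #K) ∧
      (∀ K : Type, classical.covNLe K ↔ covN ≤ #K)) ∧
    ∀ κ : Cardinal.{0}, 𝔠 ≤ κ → ∃ (P : Type) (_ : PartialOrder P),
      Nonempty P ∧ CCC P ∧ CardinalsPreserved P ∧
      (∀ W : Type, #W = 𝔠 → ∀ p : P, p ∈ (forcing P).roscLe W) ∧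
      (∀ W : Type, #W ≤ κ → ∀ p : P, p ∈ (forcing P).neg ((forcing P).covNLe W)) := by
  refine ⟨⟨roscLe_iff, covNLe_iff⟩, fun κ hκ => ?_⟩
  let L : Type := (Order.succ κ).out
  have hL : #L = Order.succ κ := Cardinal.mk_out _
  have hL1 : κ < #L := by rw [hL]; exact Order.lt_succ κ
  have hL0 : ℵ₀ < #L := (Cardinal.aleph0_lt_continuum.trans_le hκ).trans hL1
  refine ⟨CR Empty L, inferInstance, ⟨Cond.top⟩, ccc_Cond, cardinalsPreserved ccc_Cond,
    fun W hW p => ?_, fun W hW p => ?_⟩
  · have h1 : #W = #(Set ℕ) := by rw [hW, Cardinal.mk_set, Cardinal.mk_nat, Cardinal.two_power_aleph0]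
    obtain ⟨e⟩ := Cardinal.eq.mp h1
    exact mem_roscLe e e.surjective p
  · exact not_covNLe (hW.trans_lt hL1) hL0 p

end Pool.Agent.Results.MP_177d78_lc.OscBelowCovNull
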